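import Pool.Agent.Helper34.R9.Sheet

/-! R9 row RES2: crude bound for the resultant. -/

set_option autoImplicit false

namespace Pool.Helper34.R9

open Pool.Helper17.R8 (fI fJ q4 q3 q2 q1 q0 pI pJ)
open Polynomial

namespace S2

/-- `p` is majorised by a polynomial with value at most `b` at `1` -/
def LB (p : ℤ[X]) (b : ℤ) : Prop :=
  ∃ P : ℤ[X], (∀ i, |p.coeff i| ≤ P.coeff i) ∧ P.eval 1 ≤ b

theorem nonneg_eval {P : ℤ[X]} (h : ∀ i, 0 ≤ P.coeff i) : 0 ≤ P.eval 1 := by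
  rw [eval_eq_sum, Polynomial.sum]
  exact Finset.sum_nonneg fun i _ => by simpa using h i

theorem coeff_le_eval {P : ℤ[X]} (h : ∀ i, 0 ≤ P.coeff i) (i : ℕ) : P.coeff i ≤ P.eval 1 := by
  rw [eval_eq_sum, Polynomial.sum]
  by_cases hi : i ∈ P.support
  · refine le_trans (le_of_eq ?_) (Finset.single_le_sum (f := fun j => P.coeff j * 1 ^ j)
      (fun j _ => by simpa using h j) hi)
    simp
  · rw [notMem_support_iff.1 hi]
    exact Finset.sum_nonneg fun j _ => by simpa using h j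

theorem LB.coeff {p : ℤ[X]} {b : ℤ} (h : LB p b) (i : ℕ) : |p.coeff i| ≤ b := by
  obtain ⟨P, h1, h2⟩ := h
  have h0 : ∀ i, 0 ≤ P.coeff i := fun i => (abs_nonneg _).trans (h1 i)
  exact (h1 i).trans ((coeff_le_eval h0 i).trans h2)

theorem LB.nonneg {p : ℤ[X]} {b : ℤ} (h : LB p b) : 0 ≤ b := (abs_nonneg _).trans (h.coeff 0)

theorem LB.mono {p : ℤ[X]} {b c : ℤ} (h : LB p b) (hbc : b ≤ c) : LB p c := by
  obtain ⟨P, h1, h2⟩ := h
  exact ⟨P, h1, h2.trans hbc⟩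

theorem LB.add {p q : ℤ[X]} {b c : ℤ} (hp : LB p b) (hq : LB q c) : LB (p + q) (b + c) := by
  obtain ⟨P, h1, h2⟩ := hp
  obtain ⟨Q, h3, h4⟩ := hq
  refine ⟨P + Q, fun i => ?_, ?_⟩
  · rw [coeff_add, coeff_add]
    exact (abs_add_le _ _).trans (add_le_add (h1 i) (h3 i))
  · rw [eval_add]
    exact add_le_add h2 h4

theorem LB.neg {p : ℤ[X]} {b : ℤ} (hp : LB p b) : LB (-p) b := by
  obtain ⟨P, h1, h2⟩ := hp
  exact ⟨P, fun i => by rw [coeff_neg, abs_neg]; exact h1 i, h2⟩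

theorem LB.mul {p q : ℤ[X]} {b c : ℤ} (hp : LB p b) (hq : LB q c) : LB (p * q) (b * c) := by
  have hb := hp.nonneg
  obtain ⟨P, h1, h2⟩ := hp
  obtain ⟨Q, h3, h4⟩ := hq
  have h0 : ∀ i, 0 ≤ Q.coeff i := fun i => (abs_nonneg _).trans (h3 i)
  have h0' : ∀ i, 0 ≤ P.coeff i := fun i => (abs_nonneg _).trans (h1 i)
  refine ⟨P * Q, fun i => ?_, ?_⟩
  · rw [coeff_mul, coeff_mul]
    refine (Finset.abs_sum_le_sum_abs _ _).trans (Finset.sum_le_sum fun x _ => ?_)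
    rw [abs_mul]
    exact mul_le_mul (h1 _) (h3 _) (abs_nonneg _) (h0' _)
  · rw [eval_mul]
    exact mul_le_mul h2 h4 (nonneg_eval h0) hb

theorem LB_C (a : ℤ) : LB (C a) |a| := by
  refine ⟨C |a|, fun i => ?_, by rw [eval_C]⟩
  rw [coeff_C, coeff_C]
  split_ifs
  · exact le_rfl
  · simp

theorem LB_X : LB X 1 := by
  refine ⟨X, fun i => ?_, by rw [eval_X]⟩
  rw [coeff_X]
  split_ifs <;> simp

/-- bounds of weight `k` -/
def OO (C₀ : ℤ) (k : ℕ) (F : (ℕ → ℤ) → ℤ[X]) : Prop := ∃ K : ℤ, 0 ≤ K ∧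
  ∀ (m : ℕ) (e : ℕ → ℤ), 1 ≤ m → (∀ j, j ≤ 8 → |e j| ≤ C₀ * (m : ℤ) ^ j) →
    LB (F e) (K * (m : ℤ) ^ k)

variable {C₀ : ℤ} {k l : ℕ} {F G : (ℕ → ℤ) → ℤ[X]}

theorem OO.add (h1 : OO C₀ k F) (h2 : OO C₀ k G) : OO C₀ k (fun e => F e + G e) := by
  obtain ⟨K, hK, h1⟩ := h1
  obtain ⟨L, hL, h2⟩ := h2
  refine ⟨K + L, by positivity, fun m e hm he => ?_⟩
  rw [add_mul]
  exact (h1 m e hm he).add (h2 m e hm he)

theorem OO.sub (h1 : OO C₀ k F) (h2 : OO C₀ k G) : OO C₀ k (fun e => F e - G e) := by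
  obtain ⟨K, hK, h1⟩ := h1
  obtain ⟨L, hL, h2⟩ := h2
  refine ⟨K + L, by positivity, fun m e hm he => ?_⟩
  change LB (F e - G e) _
  rw [add_mul, sub_eq_add_neg]
  exact (h1 m e hm he).add (h2 m e hm he).neg

theorem OO.mul (h1 : OO C₀ k F) (h2 : OO C₀ l G) : OO C₀ (k + l) (fun e => F e * G e) := by
  obtain ⟨K, hK, h1⟩ := h1
  obtain ⟨L, hL, h2⟩ := h2
  refine ⟨K * L, by positivity, fun m e hm he => ?_⟩
  rw [show K * L * (m : ℤ) ^ (k + l) = K * (m : ℤ) ^ k * (L * (m : ℤ) ^ l) by ring]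
  exact (h1 m e hm he).mul (h2 m e hm he)

theorem OO.num (n : ℕ) [n.AtLeastTwo] (h1 : OO C₀ k F) :
    OO C₀ k (fun e => (OfNat.ofNat n : ℤ[X]) * F e) := by
  obtain ⟨K, hK, h1⟩ := h1
  refine ⟨|(n : ℤ)| * K, by positivity, fun m e hm he => ?_⟩
  have h2 : (OfNat.ofNat n : ℤ[X]) = C (n : ℤ) := by
    rw [map_natCast]
    rfl
  change LB ((OfNat.ofNat n : ℤ[X]) * F e) _
  rw [h2, mul_assoc]
  exact (LB_C _).mul (h1 m e hm he)

theorem OO_e {j : ℕ} (hj : j ≤ 8) : OO C₀ j (fun e => C (e j)) := by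
  refine ⟨|C₀|, abs_nonneg _, fun m e hm he => (LB_C _).mono ?_⟩
  exact (he j hj).trans (mul_le_mul_of_nonneg_right (le_abs_self _) (by positivity))

theorem OO_X : OO C₀ 6 (fun _ => X) := by
  refine ⟨1, by norm_num, fun m e hm he => LB_X.mono ?_⟩
  rw [one_mul]
  exact one_le_pow₀ (by exact_mod_cast hm)

theorem OO.sq (h1 : OO C₀ k F) : OO C₀ (k + k) (fun e => F e ^ 2) := by
  have h2 := h1.mul h1
  refine (show (fun e => F e * F e) = (fun e => F e ^ 2) from ?_) ▸ h2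
  funext e
  rw [pow_two]

/-- the coefficients -/
noncomputable abbrev cc (e : ℕ → ℤ) : ℕ → ℤ[X] := fun k => C (e k)

theorem h4 : OO C₀ 6 (fun e => q4 (cc e) X) := by
  unfold q4
  exact (OO_e (by norm_num)).sq.sub (OO_X.num 4)

theorem h3 : OO C₀ 8 (fun e => q3 (cc e) X) := by
  unfold q3
  refine OO.sub ?_ (OO.num 4 (OO.add (OO_X.mul (OO_e (j := 2) (by norm_num)))
    (OO_e (j := 8) (by norm_num))))
  exact ((OO_e (j := 3) (by norm_num)).num 2).mul (OO_e (j := 5) (by norm_num))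

theorem h2 : OO C₀ 10 (fun e => q2 (cc e) X) := by
  unfold q2
  refine OO.sub (OO.add (OO_e (j := 5) (by norm_num)).sq ?_)
    (OO.num 4 (OO.add (OO_X.mul (OO_e (j := 4) (by norm_num)))
      ((OO_e (j := 8) (by norm_num)).mul (OO_e (j := 2) (by norm_num)))))
  exact ((OO_e (j := 3) (by norm_num)).num 2).mul (OO_e (j := 7) (by norm_num))

theorem h1 : OO C₀ 12 (fun e => q1 (cc e) X) := by
  unfold q1
  refine OO.sub ?_ (OO.num 4 (OO.add (OO_X.mul ((OO_e (j := 6) (by norm_num)).sub OO_X))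
    ((OO_e (j := 8) (by norm_num)).mul (OO_e (j := 4) (by norm_num)))))
  exact ((OO_e (j := 5) (by norm_num)).num 2).mul (OO_e (j := 7) (by norm_num))

theorem h0 : OO C₀ 14 (fun e => q0 (cc e) X) := by
  unfold q0
  refine OO.sub (OO_e (j := 7) (by norm_num)).sq ?_
  exact ((OO_e (j := 8) (by norm_num)).num 4).mul ((OO_e (j := 6) (by norm_num)).sub OO_X)

theorem hI : OO C₀ 20 (fun e => pI e) := by
  unfold pI fI
  exact OO.add (OO.sub ((h4.num 12).mul h0) ((h3.num 3).mul h1)) h2.sq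

theorem hJ : OO C₀ 30 (fun e => pJ e) := by
  unfold pJ fJ
  have a1 : OO C₀ 30 (fun e => 72 * q4 (cc e) X * q2 (cc e) X * q0 (cc e) X) :=
    ((h4.num 72).mul h2).mul h0
  have a2 : OO C₀ 30 (fun e => 9 * q3 (cc e) X * q2 (cc e) X * q1 (cc e) X) :=
    ((h3.num 9).mul h2).mul h1
  have a3 : OO C₀ 30 (fun e => 27 * q4 (cc e) X * q1 (cc e) X ^ 2) := (h4.num 27).mul h1.sq
  have a4 : OO C₀ 30 (fun e => 27 * q0 (cc e) X * q3 (cc e) X ^ 2) := (h0.num 27).mul h3.sq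
  have a5 : OO C₀ 30 (fun e => 2 * q2 (cc e) X ^ 3) := by
    have b := h2.mul (C₀ := C₀) h2.sq
    refine OO.num 2 ((show (fun e => q2 (cc e) X * q2 (cc e) X ^ 2) =
      (fun e => q2 (cc e) X ^ 3) from ?_) ▸ b)
    funext e
    ring
  exact ((((a1.add a2).sub a3).sub a4).sub a5)

end S2

open S2 in
/-- (RES2) -/
theorem st_RES2 : ST_RES2 := by
  intro C₀ hC₀
  obtain ⟨K, hK, hI⟩ := S2.hI (C₀ := C₀)
  obtain ⟨L, hL, hJ⟩ := S2.hJ (C₀ := C₀)
  refine ⟨(Nat.factorial 8 : ℤ) * (K + L + 1) ^ 8, ?_, fun m e hm he => ?_⟩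
  · have h1 : (1 : ℤ) ≤ (K + L + 1) ^ 8 := one_le_pow₀ (by linarith)
    have h2 : (1 : ℤ) ≤ (Nat.factorial 8 : ℤ) := by exact_mod_cast Nat.factorial_pos 8
    nlinarith
  · have hm1 : (1 : ℤ) ≤ m := by exact_mod_cast hm
    have hm20 : (m : ℤ) ^ 20 ≤ (m : ℤ) ^ 30 := pow_le_pow_right₀ hm1 (by norm_num)
    have hm0 : (0 : ℤ) ≤ (m : ℤ) ^ 20 := by positivity
    have hm3 : (0 : ℤ) ≤ (m : ℤ) ^ 30 := by positivity
    have e1 : ∀ i, |(pI e).coeff i| ≤ (K + L + 1) * (m : ℤ) ^ 30 := by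
      intro i
      have := (hI m e hm he).coeff i
      nlinarith
    have e2 : ∀ i, |(pJ e).coeff i| ≤ (K + L + 1) * (m : ℤ) ^ 30 := by
      intro i
      have := (hJ m e hm he).coeff i
      nlinarith
    have e3 : (0 : ℤ) ≤ (K + L + 1) * (m : ℤ) ^ 30 := by positivity
    have h1 := Matrix.det_le (A := sylvester (pI e) (pJ e) 3 5) (abv := AbsoluteValue.abs)
      (x := (K + L + 1) * (m : ℤ) ^ 30) ?_
    · rw [rho, resultant]
      refine h1.trans (le_of_eq ?_)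
      rw [Fintype.card_fin, nsmul_eq_mul]
      ring
    · intro i j
      rw [AbsoluteValue.abs_apply, sylvester, Matrix.of_apply]
      refine j.addCases (fun j₁ => ?_) (fun j₁ => ?_)
      · rw [Fin.addCases_left]
        split_ifs
        · exact e2 _
        · rw [abs_zero]
          exact e3
      · rw [Fin.addCases_right]
        split_ifs
        · exact e1 _
        · rw [abs_zero]
          exact e3

end Pool.Helper34.R9
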